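import Pool.Agent.W187.CV.Stm

/-! Project CV: the law at an arbitrary real point, by rescaling. -/

set_option autoImplicit false

namespace Pool.Agent.W645.CV

open Complex MeasureTheory Filter Topology Set
open Pool.Agent.W189.ML Pool.Agent.W187.UR Pool.Agent.W187.S2
open Pool.Agent.W187.CV

/-- order and trailing coefficient under an affine substitution -/
theorem rescale_order {F : ℂ → ℂ} {s₀ a : ℝ} (ha : 0 < a) {m : ℤ}
    (hF : MeromorphicAt F (s₀ : ℂ))
    (hF' : MeromorphicAt (fun w : ℂ => F (s₀ + a * w)) 0)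
    (hm : meromorphicOrderAt (fun w : ℂ => F (s₀ + a * w)) 0 = m) :
    meromorphicOrderAt F (s₀ : ℂ) = m ∧
      meromorphicTrailingCoeffAt (fun w : ℂ => F (s₀ + a * w)) 0 ≠ 0 ∧
      meromorphicTrailingCoeffAt F (s₀ : ℂ) =
        ((a : ℂ) ^ m)⁻¹ * meromorphicTrailingCoeffAt (fun w : ℂ => F (s₀ + a * w)) 0 := by
  have ha0 : (a : ℂ) ≠ 0 := by exact_mod_cast ha.ne'
  obtain ⟨g, hg, hg0, hev⟩ := (meromorphicOrderAt_eq_int_iff hF').mp hm
  have h1 : meromorphicTrailingCoeffAt (fun w : ℂ => F (s₀ + a * w)) 0 = g 0 :=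
    hg.meromorphicTrailingCoeffAt_of_ne_zero_of_eq_nhdsNE hg0 hev
  have hφ : AnalyticAt ℂ (fun s : ℂ => (s - s₀) / a) (s₀ : ℂ) := by fun_prop
  have hφ0 : (fun s : ℂ => (s - s₀) / a) (s₀ : ℂ) = 0 := by simp
  have hG : AnalyticAt ℂ (fun s : ℂ => ((a : ℂ) ^ m)⁻¹ * g ((s - s₀) / a)) (s₀ : ℂ) := by
    have h2 : AnalyticAt ℂ (g ∘ (fun s : ℂ => (s - s₀) / a)) (s₀ : ℂ) := by
      apply AnalyticAt.comp _ hφ
      have hφ1 : ((s₀ : ℂ) - s₀) / a = 0 := by simp
      show AnalyticAt ℂ g (((s₀ : ℂ) - s₀) / a)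
      rw [hφ1]
      exact hg
    exact analyticAt_const.mul h2
  have hG0 : (fun s : ℂ => ((a : ℂ) ^ m)⁻¹ * g ((s - s₀) / a)) (s₀ : ℂ) ≠ 0 := by
    simp only [sub_self, zero_div]
    exact mul_ne_zero (inv_ne_zero (zpow_ne_zero _ ha0)) hg0
  have htend : Tendsto (fun s : ℂ => (s - s₀) / a) (𝓝[≠] (s₀ : ℂ)) (𝓝[≠] (0 : ℂ)) := by
    rw [tendsto_nhdsWithin_iff]
    constructor
    · have := hφ.continuousAt.tendsto
      have hφ1 : ((s₀ : ℂ) - s₀) / a = 0 := by simp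
      simp only [hφ1] at this
      exact this.mono_left nhdsWithin_le_nhds
    · filter_upwards [self_mem_nhdsWithin] with s hs
      have : s - s₀ ≠ 0 := sub_ne_zero.2 hs
      exact div_ne_zero this ha0
  have hev2 : ∀ᶠ s in 𝓝[≠] (s₀ : ℂ), F s =
      (s - s₀) ^ m • (fun s : ℂ => ((a : ℂ) ^ m)⁻¹ * g ((s - s₀) / a)) s := by
    filter_upwards [htend.eventually hev] with s hs
    have e1 : (s₀ : ℂ) + a * ((s - s₀) / a) = s := by field_simp; ring
    rw [e1, sub_zero] at hs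
    rw [hs]
    simp only [smul_eq_mul]
    rw [div_zpow]
    field_simp
  refine ⟨(meromorphicOrderAt_eq_int_iff hF).mpr ⟨_, hG, hG0, hev2⟩, by rw [h1]; exact hg0, ?_⟩
  rw [h1, hG.meromorphicTrailingCoeffAt_of_ne_zero_of_eq_nhdsNE hG0 hev2]
  simp

theorem point (h : S_LAWX) : S_POINT := by
  intro ι _ lam b A s₀ hlam hsum F hmer hexp
  set a : ℝ := max 1 (A - s₀) with hadef
  have ha1 : 1 ≤ a := le_max_left _ _
  have ha2 : A - s₀ ≤ a := le_max_right _ _
  have ha : 0 < a := by linarith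
  have hre : ∀ w : ℂ, 1 < w.re → A < ((s₀ : ℂ) + a * w).re := by
    intro w hw
    simp only [add_re, ofReal_re, mul_re, ofReal_im, zero_mul, sub_zero]
    nlinarith
  have hmer' : ∀ x ∈ Icc (0 : ℝ) 2, MeromorphicAt (fun w : ℂ => F (s₀ + a * w)) (x : ℂ) := by
    intro x hx
    have hx' : MeromorphicAt F ((fun w : ℂ => (s₀ : ℂ) + a * w) (x : ℂ)) := by
      have := hmer (s₀ + a * x) (by nlinarith [hx.1])
      push_cast at this
      exact this
    have hg : AnalyticAt ℂ (fun w : ℂ => (s₀ : ℂ) + a * w) (x : ℂ) := by fun_prop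
    exact MeromorphicAt.comp_analyticAt (f := F) (g := fun w : ℂ => (s₀ : ℂ) + a * w) hx' hg
  have hterm : ∀ (w : ℂ) (i : ι), b i * exp (-((s₀ + a * w) * lam i)) =
      (b i * exp (-(s₀ * lam i))) * exp (-(w * ((a * lam i : ℝ) : ℂ))) := by
    intro w i
    rw [mul_assoc, ← Complex.exp_add]
    congr 2
    push_cast
    ring
  have hexp' : ∀ w : ℂ, 1 < w.re → (fun w : ℂ => F (s₀ + a * w)) w =
      exp (∑' i, (b i * exp (-(s₀ * lam i))) * exp (-(w * ((a * lam i : ℝ) : ℂ)))) := by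
    intro w hw
    show F (s₀ + a * w) = _
    rw [hexp _ (hre w hw)]
    congr 1
    exact tsum_congr fun i => hterm w i
  have hne2 : meromorphicOrderAt (fun w : ℂ => F (s₀ + a * w)) ((2 : ℝ) : ℂ) ≠ ⊤ := by
    intro htop
    rw [meromorphicOrderAt_eq_top_iff] at htop
    have hopen : ∀ᶠ w in 𝓝[≠] (((2 : ℝ)) : ℂ), 1 < w.re := by
      apply eventually_nhdsWithin_of_eventually_nhds
      have hc : Tendsto Complex.re (𝓝 (((2 : ℝ)) : ℂ)) (𝓝 ((((2 : ℝ)) : ℂ)).re) :=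
        Complex.continuous_re.tendsto _
      apply hc.eventually
      rw [ofReal_re]
      exact lt_mem_nhds (by norm_num)
    obtain ⟨w, hw1, hw2⟩ := (htop.and hopen).exists
    have h3 := hexp' w hw2
    have h4 : (0 : ℂ) = _ := hw1.symm.trans h3
    exact (Complex.exp_ne_zero _) h4.symm
  have hconn : IsPreconnected ((fun x : ℝ => (x : ℂ)) '' Icc (0 : ℝ) 2) :=
    isPreconnected_Icc.image _ Complex.continuous_ofReal.continuousOn
  have hmon : MeromorphicOn (fun w : ℂ => F (s₀ + a * w)) ((fun x : ℝ => (x : ℂ)) '' Icc (0 : ℝ) 2) := by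
    rintro _ ⟨x, hx, rfl⟩
    exact hmer' x hx
  have hne0 : meromorphicOrderAt (fun w : ℂ => F (s₀ + a * w)) 0 ≠ ⊤ := by
    have := hmon.meromorphicOrderAt_ne_top_of_isPreconnected (x := ((2 : ℝ) : ℂ)) (y := ((0 : ℝ) : ℂ))
      hconn ⟨2, by norm_num, rfl⟩ ⟨0, by norm_num, rfl⟩ hne2
    simpa using this
  obtain ⟨m, hm⟩ := WithTop.ne_top_iff_exists.mp hne0
  have hm' : meromorphicOrderAt (fun w : ℂ => F (s₀ + a * w)) 0 = m := hm.symm
  have hF0' : MeromorphicAt (fun w : ℂ => F (s₀ + a * w)) 0 := by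
    have := hmer' 0 (by norm_num)
    simpa using this
  obtain ⟨hord, htc0, htc⟩ := rescale_order ha (hmer s₀ le_rfl) hF0' hm'
  have hsum' : ∀ σ : ℝ, 1 < σ →
      Summable fun i => ‖b i * exp (-(s₀ * lam i))‖ * Real.exp (-(σ * (a * lam i))) := by
    intro σ hσ
    have h1 := hsum (s₀ + σ * a) (by nlinarith)
    refine h1.congr fun i => ?_
    rw [norm_mul, Complex.norm_exp, mul_assoc, ← Real.exp_add]
    congr 2
    simp
    ring
  obtain ⟨r₀, hr0, hlaw⟩ := h (fun i => a * lam i) (fun i => b i * exp (-(s₀ * lam i)))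
    (fun i => mul_nonneg ha.le (hlam i)) hsum' (fun w : ℂ => F (s₀ + a * w)) hmer' hexp' m hm'
  have ha0 : (a : ℂ) ≠ 0 := by exact_mod_cast ha.ne'
  have hexpa : exp ((m : ℂ) * (Real.log a : ℝ)) = (a : ℂ) ^ m := by
    rw [Complex.exp_int_mul, ← Complex.ofReal_exp, Real.exp_log ha]
  refine ⟨m, hord, ?_, r₀ - m * (Real.log a : ℝ), ?_, ?_⟩
  · rw [htc]
    exact mul_ne_zero (inv_ne_zero (zpow_ne_zero _ ha0)) htc0
  · rw [htc, Complex.exp_sub, hexpa, hr0]
    field_simp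
  · intro γ hγ
    obtain ⟨C, T₀, hC, hT₀, hT⟩ := hlaw γ hγ
    refine ⟨C, T₀, hC, hT₀, fun T hTT => ?_⟩
    have hTpos : 0 < T := by linarith
    have h2 := hT (a * T) (by nlinarith)
    have e1 : (∑' i, (b i * exp (-(s₀ * lam i))) * kk γ (a * lam i / (a * T))) =
        ∑' i, b i * exp (-(s₀ * lam i)) * kk γ (lam i / T) := by
      refine tsum_congr fun i => ?_
      rw [mul_div_mul_left _ _ ha.ne']
    have e2 : (Real.log (a * T) : ℝ) = Real.log a + Real.log T := Real.log_mul ha.ne' hTpos.ne'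
    rw [e1, e2] at h2
    have e3 : (-((m : ℂ) * ((Real.log a + Real.log T : ℝ) : ℂ)) + m * Lam γ + r₀) =
        (-((m : ℂ) * ((Real.log T : ℝ) : ℂ)) + m * Lam γ + (r₀ - m * ((Real.log a : ℝ) : ℂ))) := by
      push_cast
      ring
    rw [e3] at h2
    refine h2.trans ?_
    apply div_le_div_of_nonneg_left hC hTpos
    nlinarith

end Pool.Agent.W645.CV
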